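import Pool.Agent.Helper54.LB.Defs
import Pool.Agent.Helper37.LS.Good

/-!
# Project LB: from two rules (bulk and cap) to a symmetric chain decomposition of `L(5,n)`
-/

set_option autoImplicit false

namespace Pool.LB

open Pool.LS Pool.LS.Asm

/-- The rule used in degree `d` inside `L(5,n)`. -/
def sel {X : Type} (n d : ℕ) (a b : X) : X := if d < n then a else b

theorem sel_lt {X : Type} {n d : ℕ} (h : d < n) (a b : X) : sel n d a b = a := if_pos h

theorem sel_ge {X : Type} {n d : ℕ} (h : n ≤ d) (a b : X) : sel n d a b = b :=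
  if_neg (not_lt.2 h)

/-- `v → w` is a step of the chains. -/
def Step (α β : ℕ) (lab : Mon → Lab) (mo : Mon → ℕ) (lab' : Mon → Lab) (mo' : Mon → ℕ) (n : ℕ)
    (v w : Mon) : Prop :=
  ∃ b i j : ℕ, ∃ r : Mon, Red α β r ∧ v = comp α β b i j r ∧
    ((sel n (deg v) mo mo' r ≠ 0 ∧ ∃ f, Red α β f ∧ Mv (sel n (deg v) mo mo' r) r f ∧
        w = comp α β b i j f) ∨
     (mo r = 0 ∧ lab r ≠ .C 5 ∧ deg v < n ∧ w = comp α β b i j (x1 r)) ∨
     (sel n (deg v) mo mo' r = 0 ∧ sel n (deg v) lab lab' r = .C 5 ∧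
        ∃ u, r = x34 u ∧ Red α β u ∧ w = comp α β (b + 1) i j u))

/-- The length in terms of the label. -/
def ordK (n b d k : ℕ) : Lab → ℤ
  | .A o => (o : ℤ) + 5 * ((n : ℤ) - d) + 6 * b
  | .B j => 2 * ((k : ℤ) + 5 - j + 5 * ((n : ℤ) - d)) - 5 * n
  | .C j => 5 * (n : ℤ) - 2 * ((k : ℤ) - j - 6 * b)

/-- The length of the chain through `v`. -/
def ordN (α β : ℕ) (lab lab' : Mon → Lab) (n : ℕ) (v : Mon) : ℤ :=
  ordK n (bOf v) (deg v) (rk v) (sel n (deg v) lab lab' (rOf α β v))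

theorem step_fun {α β : ℕ} {lab : Mon → Lab} {mo : Mon → ℕ} {lab' : Mon → Lab} {mo' : Mon → ℕ}
    {n : ℕ} {v w w' : Mon}
    (h : Step α β lab mo lab' mo' n v w) (h' : Step α β lab mo lab' mo' n v w') : w = w' := by
  obtain ⟨b, i, j, r, hr, hv, h⟩ := h
  obtain ⟨b', i', j', r', hr', hv', h'⟩ := h'
  obtain ⟨rfl, rfl, rfl, rfl⟩ := comp_inj hr hr' (hv.symm.trans hv')
  rcases h with ⟨hm, f, hf, hfm, hw⟩ | ⟨hm, ht, hd, hw⟩ | ⟨hm, hC, u, hu, hur, hw⟩ <;>
  rcases h' with ⟨hm', f', hf', hfm', hw'⟩ | ⟨hm', ht', hd', hw'⟩ | ⟨hm', hC', u', hu', hur', hw'⟩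
  · rw [hw, hw', Mv_unique hfm hfm']
  · rw [sel_lt hd'] at hm
    exact absurd hm' hm
  · exact absurd hm' hm
  · rw [sel_lt hd] at hm'
    exact absurd hm hm'
  · rw [hw, hw']
  · rw [sel_lt hd] at hC'
    exact absurd hC' ht
  · exact absurd hm hm'
  · rw [sel_lt hd'] at hC
    exact absurd hC ht'
  · rw [hw, hw', x34_inj (hu.symm.trans hu')]

theorem step_deg {α β : ℕ} {lab : Mon → Lab} {mo : Mon → ℕ} {lab' : Mon → Lab} {mo' : Mon → ℕ}
    {n : ℕ} {v w : Mon}
    (h : Step α β lab mo lab' mo' n v w) (hn : deg v ≤ n) : deg w ≤ n ∧ rk w = rk v + 1 := by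
  obtain ⟨b, i, j, r, hr, hv, h⟩ := h
  rcases h with ⟨hm, f, hf, hfm, hw⟩ | ⟨hm, ht, hd, hw⟩ | ⟨hm, hC, u, hu, hur, hw⟩
  · have := Mv_deg hfm
    rw [hw, deg_comp, rk_comp, this.1, this.2]
    rw [hv, deg_comp] at hn
    rw [hv, rk_comp]
    omega
  · have := deg_x1 r
    rw [hw, deg_comp, rk_comp, this.1, this.2]
    rw [hv, deg_comp] at hd
    rw [hv, rk_comp]
    omega
  · have := deg_x34 u
    rw [hw, deg_comp, rk_comp]
    rw [hv, deg_comp, hu, this.1] at hn
    rw [hv, rk_comp, hu, this.2]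
    omega

theorem step_le {α β : ℕ} {lab : Mon → Lab} {mo : Mon → ℕ} {lab' : Mon → Lab} {mo' : Mon → ℕ}
    {n : ℕ} {v w : Mon}
    (h : Step α β lab mo lab' mo' n v w) : ofMon v ≤ ofMon w := by
  obtain ⟨b, i, j, r, hr, hv, h⟩ := h
  rcases h with ⟨hm, f, hf, hfm, hw⟩ | ⟨hm, ht, hd, hw⟩ | ⟨hm, hC, u, hu, hur, hw⟩
  · clear hm
    generalize sel n (deg v) mo mo' r = k at hfm
    subst hv hw
    unfold Mv at hfm
    intro k
    fin_cases k <;> simp [ofMon, comp] <;> omega
  · subst hv hw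
    intro k
    fin_cases k <;> simp [ofMon, comp, x1]
  · clear hm hC
    subst hv hw hu
    intro k
    fin_cases k <;> simp [ofMon, comp, x34] <;> omega

theorem ordN_comp {α β : ℕ} (hα : 0 < α) (hβ : 0 < β) (lab lab' : Mon → Lab) (n b i j : ℕ)
    {r : Mon} (hr : Red α β r) :
    ordN α β lab lab' n (comp α β b i j r) =
      ordK n b (deg (comp α β b i j r)) (rk (comp α β b i j r))
        (sel n (deg (comp α β b i j r)) lab lab' r) := by
  obtain ⟨h1, h2⟩ := rOf_comp (b := b) (i := i) (j := j) hα hβ hr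
  unfold ordN
  rw [h1, h2]

section
variable {α β : ℕ} {lab : Mon → Lab} {mo : Mon → ℕ} {lab' : Mon → Lab} {mo' : Mon → ℕ}
  (h : Good2 α β lab mo lab' mo')
include h

theorem sel_step {n d : ℕ} {e : Mon} (he : Red α β e) (hm : sel n d mo mo' e ≠ 0) :
    ∃ f, Red α β f ∧ Mv (sel n d mo mo' e) e f ∧
      sel n d lab lab' f = (sel n d lab lab' e).next := by
  by_cases hd : d < n
  · simp only [sel_lt hd] at hm ⊢
    exact h.step e he hm
  · simp only [sel_ge (not_lt.1 hd)] at hm ⊢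
    exact h.step' e he hm

theorem sel_inj {n d : ℕ} {e e' f : Mon} (he : Red α β e) (he' : Red α β e') (hf : Red α β f)
    (hm : sel n d mo mo' e ≠ 0) (hm' : sel n d mo mo' e' ≠ 0)
    (h1 : Mv (sel n d mo mo' e) e f) (h2 : Mv (sel n d mo mo' e') e' f) : e = e' := by
  by_cases hd : d < n
  · simp only [sel_lt hd] at hm hm' h1 h2
    exact h.inj e e' f he he' hf hm hm' h1 h2
  · simp only [sel_ge (not_lt.1 hd)] at hm hm' h1 h2
    exact h.inj' e e' f he he' hf hm hm' h1 h2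

theorem sel_start {n d : ℕ} {f : Mon} (hf : Red α β f) :
    (∃ e, Red α β e ∧ sel n d mo mo' e ≠ 0 ∧ Mv (sel n d mo mo' e) e f) ↔
      ¬ (Bot (sel n d lab lab') f ∨ Beg α β lab mo f) := by
  by_cases hd : d < n
  · simp only [sel_lt hd]
    exact h.start f hf
  · simp only [sel_ge (not_lt.1 hd)]
    exact h.start' f hf

theorem sel_bot {n d : ℕ} {u : Mon} (hu : Red α β u) (hb : Bot (sel n d lab lab') u) :
    u.e4 = 0 ∧ Red α β (x34 u) ∧ sel n d lab lab' (x34 u) = .C 5 := by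
  by_cases hd : d < n
  · simp only [sel_lt hd] at hb ⊢
    exact h.bot u hu hb
  · simp only [sel_ge (not_lt.1 hd)] at hb ⊢
    exact h.bot' u hu hb

theorem sel_botOf {n d : ℕ} {e : Mon} (he : Red α β e) (hC : sel n d lab lab' e = .C 5) :
    ∃ u, e = x34 u ∧ Bot (sel n d lab lab') u := by
  by_cases hd : d < n
  · simp only [sel_lt hd] at hC ⊢
    exact h.botOf e he hC
  · simp only [sel_ge (not_lt.1 hd)] at hC ⊢
    exact h.botOf' e he hC

theorem sel_stopC {n d : ℕ} {e : Mon} (he : Red α β e) (hC : sel n d lab lab' e = .C 5) :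
    sel n d mo mo' e = 0 := by
  by_cases hd : d < n
  · simp only [sel_lt hd] at hC ⊢
    exact h.stopC e he hC
  · simp only [sel_ge (not_lt.1 hd)] at hC ⊢
    exact (h.stop' e he).2 (Or.inr hC)

theorem step_inj {n : ℕ} {v v' w : Mon} (hs : Step α β lab mo lab' mo' n v w)
    (hs' : Step α β lab mo lab' mo' n v' w) : v = v' := by
  have key : ∀ {v w : Mon}, Step α β lab mo lab' mo' n v w →
      ∃ b i j : ℕ, ∃ r : Mon, Red α β r ∧ v = comp α β b i j r ∧
        ((sel n (deg w) mo mo' r ≠ 0 ∧ ∃ f, Red α β f ∧ Mv (sel n (deg w) mo mo' r) r f ∧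
            w = comp α β b i j f) ∨
         (mo r = 0 ∧ lab r ≠ .C 5 ∧ w = comp α β b i j (x1 r)) ∨
         (sel n (deg w) lab lab' r = .C 5 ∧
            ∃ u, r = x34 u ∧ Red α β u ∧ w = comp α β (b + 1) i j u)) := by
    rintro v w ⟨b, i, j, r, hr, hv, hs⟩
    refine ⟨b, i, j, r, hr, hv, ?_⟩
    rcases hs with ⟨hm, f, hf, hfm, hw⟩ | ⟨hm, ht, hd, hw⟩ | ⟨hm, hC, u, hu, hur, hw⟩
    · left
      have hd : deg v = deg w := by
        rw [hv, hw, deg_comp, deg_comp, (Mv_deg hfm).1]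
      rw [hd] at hm hfm
      exact ⟨hm, f, hf, hfm, hw⟩
    · right; left
      exact ⟨hm, ht, hw⟩
    · right; right
      have hd : deg v = deg w := by
        have := deg_x34 u
        rw [hv, hw, deg_comp, deg_comp, hu, this.1]
        omega
      rw [hd] at hC
      exact ⟨hC, u, hu, hur, hw⟩
  obtain ⟨b, i, j, r, hr, hv, hs⟩ := key hs
  obtain ⟨b', i', j', r', hr', hv', hs'⟩ := key hs'
  rcases hs with ⟨hm, f, hf, hfm, hw⟩ | ⟨hm, ht, hw⟩ | ⟨hC, u, hu, hur, hw⟩ <;>
  rcases hs' with ⟨hm', f', hf', hfm', hw'⟩ | ⟨hm', ht', hw'⟩ |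
    ⟨hC', u', hu', hur', hw'⟩
  · obtain ⟨rfl, rfl, rfl, rfl⟩ := comp_inj hf hf' (hw.symm.trans hw')
    rw [hv, hv', sel_inj h hr hr' hf hm hm' hfm hfm']
  · obtain ⟨_, -, hr1, -⟩ := h.top r' hr' hm' ht'
    obtain ⟨-, -, -, rfl⟩ := comp_inj hf hr1 (hw.symm.trans hw')
    exact absurd (Or.inr ⟨r', rfl, hr', hm', ht'⟩) ((sel_start h hf).1 ⟨r, hr, hm, hfm⟩)
  · obtain ⟨-, -, -, rfl⟩ := comp_inj hf hur' (hw.symm.trans hw')
    obtain ⟨u'', hu'', hb⟩ := sel_botOf h hr' hC'
    have : f = u'' := x34_inj (hu'.symm.trans hu'')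
    rw [← this] at hb
    exact absurd (Or.inl hb) ((sel_start h hf).1 ⟨r, hr, hm, hfm⟩)
  · obtain ⟨_, -, hr1, -⟩ := h.top r hr hm ht
    obtain ⟨-, -, -, rfl⟩ := comp_inj hf' hr1 (hw'.symm.trans hw)
    exact absurd (Or.inr ⟨r, rfl, hr, hm, ht⟩) ((sel_start h hf').1 ⟨r', hr', hm', hfm'⟩)
  · obtain ⟨_, -, hr1, -⟩ := h.top r hr hm ht
    obtain ⟨_, -, hr1', -⟩ := h.top r' hr' hm' ht'
    obtain ⟨rfl, rfl, rfl, h4⟩ := comp_inj hr1 hr1' (hw.symm.trans hw')
    rw [hv, hv', x1_inj h4]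
  · obtain ⟨k, -, hr1, hl, hl'⟩ := h.top r hr hm ht
    obtain ⟨-, -, -, h4⟩ := comp_inj hr1 hur' (hw.symm.trans hw')
    obtain ⟨u'', hu'', hb⟩ := sel_botOf h hr' hC'
    have : u' = u'' := x34_inj (hu'.symm.trans hu'')
    rw [← this, ← h4] at hb
    have hl2 : sel n (deg w) lab lab' (x1 r) = .B k := by
      unfold sel
      split_ifs
      · exact hl
      · exact hl'
    exact absurd hl2 (bot_ne_B hb)
  · obtain ⟨-, -, -, rfl⟩ := comp_inj hf' hur (hw'.symm.trans hw)
    obtain ⟨u'', hu'', hb⟩ := sel_botOf h hr hC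
    have : f' = u'' := x34_inj (hu.symm.trans hu'')
    rw [← this] at hb
    exact absurd (Or.inl hb) ((sel_start h hf').1 ⟨r', hr', hm', hfm'⟩)
  · obtain ⟨k, -, hr1, hl, hl'⟩ := h.top r' hr' hm' ht'
    obtain ⟨-, -, -, h4⟩ := comp_inj hr1 hur (hw'.symm.trans hw)
    obtain ⟨u'', hu'', hb⟩ := sel_botOf h hr hC
    have : u = u'' := x34_inj (hu.symm.trans hu'')
    rw [← this, ← h4] at hb
    have hl2 : sel n (deg w) lab lab' (x1 r') = .B k := by
      unfold sel
      split_ifs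
      · exact hl
      · exact hl'
    exact absurd hl2 (bot_ne_B hb)
  · obtain ⟨h1, rfl, rfl, rfl⟩ := comp_inj hur hur' (hw.symm.trans hw')
    have h1' : b = b' := by omega
    rw [hv, hv', hu, hu', h1']

end

section
variable {α β : ℕ} {lab : Mon → Lab} {mo : Mon → ℕ} {lab' : Mon → Lab} {mo' : Mon → ℕ}
  (hα : 0 < α) (hβ : 0 < β) (h : Good2 α β lab mo lab' mo')
include hα hβ h

theorem ord_step {n : ℕ} {v w : Mon} (hs : Step α β lab mo lab' mo' n v w) :
    ordN α β lab lab' n w = ordN α β lab lab' n v := by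
  obtain ⟨b, i, j, r, hr, hv, hs⟩ := hs
  have ev := two_rk_comp α β b i j r
  rcases hs with ⟨hm, f, hf, hfm, hw⟩ | ⟨hm, ht, hd, hw⟩ | ⟨hm, hC, u, hu, hur, hw⟩
  · obtain ⟨f', hf', hfm', hl⟩ := sel_step h hr hm
    obtain rfl := Mv_unique hfm hfm'
    have h1 := Mv_deg hfm
    have hdeg : deg (comp α β b i j f) = deg (comp α β b i j r) := by
      rw [deg_comp, deg_comp, h1.1]
    have hrk : rk (comp α β b i j f) = rk (comp α β b i j r) + 1 := by
      rw [rk_comp, rk_comp, h1.2]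
      omega
    rw [hv] at hl
    rw [hv, hw, ordN_comp hα hβ lab lab' n b i j hr, ordN_comp hα hβ lab lab' n b i j hf, hdeg,
      hrk, hl]
    cases sel n (deg (comp α β b i j r)) lab lab' r with
    | A o => rfl
    | B k =>
      simp only [Lab.next, ordK]
      push_cast
      ring
    | C k =>
      simp only [Lab.next, ordK]
      push_cast
      ring
  · obtain ⟨k, hk, hr1, hl, hl'⟩ := h.top r hr hm ht
    have h1 := deg_x1 r
    have hdeg : deg (comp α β b i j (x1 r)) = deg (comp α β b i j r) + 1 := by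
      rw [deg_comp, deg_comp, h1.1]
      omega
    have hrk : rk (comp α β b i j (x1 r)) = rk (comp α β b i j r) + 1 := by
      rw [rk_comp, rk_comp, h1.2]
      omega
    have hl2 : sel n (deg (comp α β b i j r) + 1) lab lab' (x1 r) = .B k := by
      unfold sel
      split_ifs
      · exact hl
      · exact hl'
    rw [hv] at hd
    rw [hv, hw, ordN_comp hα hβ lab lab' n b i j hr, ordN_comp hα hβ lab lab' n b i j hr1, hdeg,
      hrk, hl2, sel_lt hd]
    rcases hk with hk | ⟨o, hk, hd2⟩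
    · rw [hk]
      simp only [ordK]
      push_cast
      ring
    · rw [hk]
      simp only [ordK]
      push_cast
      have hd3 : d2 r = (o : ℤ) + 2 * k - 2 := by linarith
      rw [hd3] at ev
      linarith
  · obtain ⟨u', hu', hb⟩ := sel_botOf h hr hC
    obtain rfl : u = u' := x34_inj (hu.symm.trans hu')
    have h1 := deg_x34 u
    have hdeg : deg (comp α β (b + 1) i j u) = deg (comp α β b i j r) := by
      rw [deg_comp, deg_comp, hu, h1.1]
      omega
    have hrk : rk (comp α β (b + 1) i j u) = rk (comp α β b i j r) + 1 := by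
      rw [rk_comp, rk_comp, hu, h1.2]
      omega
    have ev2 := two_rk_comp α β (b + 1) i j u
    rw [hdeg, hrk] at ev2
    rw [hv] at hC hb
    rw [hv, hw, ordN_comp hα hβ lab lab' n b i j hr, ordN_comp hα hβ lab lab' n (b + 1) i j hur,
      hdeg, hrk, hC]
    rcases hb with hb | ⟨o, hb, hd2⟩
    · rw [hb]
      simp only [ordK]
      push_cast
      ring
    · rw [hb]
      simp only [ordK]
      rw [hd2] at ev2
      push_cast at ev2 ⊢
      linarith

theorem top_of {n : ℕ} {v : Mon} (hn : deg v ≤ n)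
    (hs : ¬ ∃ w, Step α β lab mo lab' mo' n v w) :
    2 * (rk v : ℤ) = 5 * n + ordN α β lab lab' n v := by
  have hr := red_rOf hα hβ v
  have hv := (comp_rOf hα hβ v).symm
  set b := bOf v
  set i := iOf α v
  set j := jOf β v
  set r := rOf α β v
  have hm : sel n (deg v) mo mo' r = 0 := by
    by_contra hm
    obtain ⟨f, hf, hfm, -⟩ := sel_step h hr hm
    exact hs ⟨_, b, i, j, r, hr, hv, Or.inl ⟨hm, f, hf, hfm, rfl⟩⟩
  by_cases hC : sel n (deg v) lab lab' r = .C 5
  · obtain ⟨u, hu, hb⟩ := sel_botOf h hr hC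
    have hur : Red α β u := red_of_x34 (hu ▸ hr)
    exact absurd ⟨_, b, i, j, r, hr, hv, Or.inr (Or.inr ⟨hm, hC, u, hu, hur, rfl⟩)⟩ hs
  · have hd : n ≤ deg v := by
      by_contra hd
      rw [not_le] at hd
      rw [sel_lt hd] at hm hC
      exact hs ⟨_, b, i, j, r, hr, hv, Or.inr (Or.inl ⟨hm, hC, hd, rfl⟩)⟩
    rw [sel_ge hd] at hm hC
    have hd' : deg v = n := le_antisymm hn hd
    have ev := two_rk_comp α β b i j r
    have eo := ordN_comp hα hβ lab lab' n b i j hr
    rw [← hv, sel_ge hd] at eo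
    rw [← hv] at ev
    rw [eo]
    rcases (h.stop' r hr).1 hm with (ht | ⟨o, ht, hd2⟩) | hC'
    · rw [ht, hd']
      simp only [ordK]
      push_cast
      ring
    · rw [ht]
      simp only [ordK]
      rw [hd2, hd'] at ev
      rw [hd']
      linarith
    · exact absurd hC' hC

theorem bot_of {n : ℕ} {w : Mon} (hn : deg w ≤ n)
    (hs : ¬ ∃ v, deg v ≤ n ∧ Step α β lab mo lab' mo' n v w) :
    2 * (rk w : ℤ) + ordN α β lab lab' n w = 5 * n := by
  have hr := red_rOf hα hβ w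
  have hw := (comp_rOf hα hβ w).symm
  set b := bOf w
  set i := iOf α w
  set j := jOf β w
  set s := rOf α β w
  have hst : Bot (sel n (deg w) lab lab') s ∨ Beg α β lab mo s := by
    by_contra hst
    obtain ⟨e, he, hme, hmv⟩ := (sel_start h hr).2 hst
    have hde : deg (comp α β b i j e) = deg w := by
      rw [hw, deg_comp, deg_comp, (Mv_deg hmv).1]
    refine hs ⟨comp α β b i j e, ?_, b, i, j, e, he, rfl, Or.inl ?_⟩
    · rw [hde]
      exact hn
    · rw [hde]
      exact ⟨hme, s, hr, hmv, hw⟩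
  rcases hst with hb | ⟨t, ht, htr, hmt, htC⟩
  · have hb0 : b = 0 := by
      by_contra hb0
      obtain ⟨b', hb'⟩ := Nat.exists_eq_succ_of_ne_zero hb0
      obtain ⟨-, h34, hC⟩ := sel_bot h hr hb
      have hm := sel_stopC h h34 hC
      have hde : deg (comp α β b' i j (x34 s)) = deg w := by
        have h1 := deg_x34 s
        rw [hw, deg_comp, deg_comp, h1.1]
        have : b = b' + 1 := hb'
        omega
      refine hs ⟨comp α β b' i j (x34 s), ?_, b', i, j, x34 s, h34, rfl,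
        Or.inr (Or.inr ?_)⟩
      · rw [hde]
        exact hn
      · rw [hde]
        refine ⟨hm, hC, s, rfl, hr, ?_⟩
        rw [hw, hb']
    have ev := two_rk_comp α β b i j s
    have eo := ordN_comp hα hβ lab lab' n b i j hr
    rw [← hw] at ev eo
    rw [eo]
    rcases hb with hb | ⟨o, hb, hd2⟩
    · rw [hb, hb0]
      simp only [ordK]
      push_cast
      ring
    · rw [hb]
      simp only [ordK]
      rw [hd2, hb0] at ev
      rw [hb0]
      push_cast at ev ⊢
      linarith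
  · have h1 := deg_x1 t
    have hlt : deg (comp α β b i j t) < n := by
      rw [hw, deg_comp, ht, h1.1] at hn
      rw [deg_comp]
      omega
    exact absurd ⟨comp α β b i j t, hlt.le, b, i, j, t, htr, rfl,
      Or.inr (Or.inl ⟨hmt, htC, hlt, by rw [hw, ht]⟩)⟩ hs

end

open Classical in
/-- The successor function. -/
noncomputable def nextF (α β : ℕ) (lab : Mon → Lab) (mo : Mon → ℕ) (lab' : Mon → Lab)
    (mo' : Mon → ℕ) (n : ℕ) (x : Fin 5 → ℕ) : Option (Fin 5 → ℕ) :=
  if h : ∃ w, Step α β lab mo lab' mo' n (toMon x) w then some (ofMon h.choose) else none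

section
variable {α β : ℕ} {lab : Mon → Lab} {mo : Mon → ℕ} {lab' : Mon → Lab} {mo' : Mon → ℕ} {n : ℕ}

theorem nextF_some {x y : Fin 5 → ℕ} (h : nextF α β lab mo lab' mo' n x = some y) :
    ∃ w, Step α β lab mo lab' mo' n (toMon x) w ∧ y = ofMon w := by
  unfold nextF at h
  split_ifs at h with hw
  exact ⟨hw.choose, hw.choose_spec, (Option.some.inj h).symm⟩

theorem nextF_of {x : Fin 5 → ℕ} {w : Mon} (h : Step α β lab mo lab' mo' n (toMon x) w) :
    nextF α β lab mo lab' mo' n x = some (ofMon w) := by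
  have hw : ∃ w, Step α β lab mo lab' mo' n (toMon x) w := ⟨w, h⟩
  unfold nextF
  rw [dif_pos hw, step_fun hw.choose_spec h]

theorem nextF_none {x : Fin 5 → ℕ} (h : nextF α β lab mo lab' mo' n x = none) :
    ¬ ∃ w, Step α β lab mo lab' mo' n (toMon x) w := by
  rintro ⟨w, hw⟩
  rw [nextF_of hw] at h
  cases h

end

/-- Two rules (bulk and cap) give a symmetric chain decomposition of `L(5,n)` for all `n`. -/
theorem sco_of_good2 (α β : ℕ) (hα : 0 < α) (hβ : 0 < β) (lab : Mon → Lab) (mo : Mon → ℕ)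
    (lab' : Mon → Lab) (mo' : Mon → ℕ) (h : Good2 α β lab mo lab' mo') (n : ℕ) : SCO 5 n := by
  refine sco_of_next 5 n (nextF α β lab mo lab' mo' n)
    (fun x => ordN α β lab lab' n (toMon x)) ?_ ?_ ?_ ?_
  · intro a b ha hab
    obtain ⟨w, hw, rfl⟩ := nextF_some hab
    have hd := mem_deg ha
    have h1 := step_deg hw hd
    have h2 := step_le hw
    rw [of_to ha.1] at h2
    refine ⟨⟨mono_of w, (le_of w n).2 h1.1⟩, h2, ?_, ?_⟩
    · rw [sum_of, h1.2, ← sum_of, of_to ha.1]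
    · show ordN α β lab lab' n (toMon (ofMon w)) = _
      rw [to_of]
      exact ord_step hα hβ h hw
  · intro a a' b ha ha' hb hb'
    obtain ⟨w, hw, hwb⟩ := nextF_some hb
    obtain ⟨w', hw', hwb'⟩ := nextF_some hb'
    have e : w = w' := by
      rw [← to_of w, ← to_of w', ← hwb, ← hwb']
    subst e
    have := step_inj h hw hw'
    rw [← of_to ha.1, ← of_to ha'.1, this]
  · intro a ha hn
    have h1 := top_of hα hβ h (mem_deg ha) (nextF_none hn)
    rw [← sum_of, of_to ha.1] at h1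
    exact_mod_cast h1
  · intro b hb hno
    have h1 := bot_of hα hβ h (mem_deg hb) (n := n) (by
      rintro ⟨v, hv, hs⟩
      refine hno ⟨ofMon v, ⟨mono_of v, (le_of v n).2 hv⟩, ?_⟩
      rw [← to_of v] at hs
      rw [nextF_of hs, of_to hb.1])
    rw [← sum_of, of_to hb.1] at h1
    exact_mod_cast h1

end Pool.LB
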