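import Pool.Agent.Helper43.LS.Defs

/-!
# Project LB: symmetric chain decompositions of `L(5,n)` from two rules (bulk and cap)

`L(5,n)` is the union of the layers `P_k` (monomials of degree `k` in `x₁, …, x₅`, times
`x₀^(n-k)`), `k ≤ n`. In the layers `k < n` the chains follow the bulk rule `lab, mo`, whose chains
may leave the layer with an offset, in the last layer they follow the cap rule `lab', mo'`, which
repairs the offsets.

Labels: `A o` (chain of the layer starting at `d2 = -o`), `B j` (continuation of a chain of the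
previous layer; `j = 1` is the regular beginning, `j = 5` the regular end, so a beginning `B i`
has offset `i - 1` and an end `B (i + 4)` has the same offset `i - 1`), `C j` (`0 ≤ j ≤ 5`).
-/

set_option autoImplicit false

namespace Pool.LB

open Pool.LS

/-- `e` is the end of a piece whose continuation `x₁ e` carries the label `B i`. -/
def EndOff (lab : Mon → Lab) (e : Mon) (i : ℕ) : Prop :=
  lab e = .B (i + 4) ∨ ∃ o : ℕ, lab e = .A o ∧ d2 e + 2 = (o : ℤ) + 2 * i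

/-- `e` is the end of a symmetric chain of the cap rule. -/
def Top5 (lab : Mon → Lab) (e : Mon) : Prop :=
  lab e = .B 5 ∨ ∃ o : ℕ, lab e = .A o ∧ d2 e = o

/-- `f = x₁ t` with a top `t` of the bulk rule. -/
def Beg (α β : ℕ) (lab : Mon → Lab) (mo : Mon → ℕ) (f : Mon) : Prop :=
  ∃ t, f = x1 t ∧ Red α β t ∧ mo t = 0 ∧ lab t ≠ .C 5

/-- The conditions on the bulk rule `lab, mo` and the cap rule `lab', mo'`. -/
structure Good2 (α β : ℕ) (lab : Mon → Lab) (mo : Mon → ℕ) (lab' : Mon → Lab) (mo' : Mon → ℕ) :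
    Prop where
  step : ∀ e, Red α β e → mo e ≠ 0 → ∃ f, Red α β f ∧ Mv (mo e) e f ∧ lab f = (lab e).next
  stopC : ∀ e, Red α β e → lab e = .C 5 → mo e = 0
  /-- a top `t` of the bulk and the beginning `x₁ t` in both rules -/
  top : ∀ t, Red α β t → mo t = 0 → lab t ≠ .C 5 →
    ∃ i, EndOff lab t i ∧ Red α β (x1 t) ∧ lab (x1 t) = .B i ∧ lab' (x1 t) = .B i
  inj : ∀ e e' f, Red α β e → Red α β e' → Red α β f → mo e ≠ 0 → mo e' ≠ 0 →
    Mv (mo e) e f → Mv (mo e') e' f → e = e'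
  start : ∀ f, Red α β f →
    ((∃ e, Red α β e ∧ mo e ≠ 0 ∧ Mv (mo e) e f) ↔ ¬ (Bot lab f ∨ Beg α β lab mo f))
  bot : ∀ u, Red α β u → Bot lab u → u.e4 = 0 ∧ Red α β (x34 u) ∧ lab (x34 u) = .C 5
  botOf : ∀ e, Red α β e → lab e = .C 5 → ∃ u, e = x34 u ∧ Bot lab u
  step' : ∀ e, Red α β e → mo' e ≠ 0 → ∃ f, Red α β f ∧ Mv (mo' e) e f ∧ lab' f = (lab' e).next
  stop' : ∀ e, Red α β e → (mo' e = 0 ↔ Top5 lab' e ∨ lab' e = .C 5)
  inj' : ∀ e e' f, Red α β e → Red α β e' → Red α β f → mo' e ≠ 0 → mo' e' ≠ 0 →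
    Mv (mo' e) e f → Mv (mo' e') e' f → e = e'
  start' : ∀ f, Red α β f →
    ((∃ e, Red α β e ∧ mo' e ≠ 0 ∧ Mv (mo' e) e f) ↔ ¬ (Bot lab' f ∨ Beg α β lab mo f))
  bot' : ∀ u, Red α β u → Bot lab' u → u.e4 = 0 ∧ Red α β (x34 u) ∧ lab' (x34 u) = .C 5
  botOf' : ∀ e, Red α β e → lab' e = .C 5 → ∃ u, e = x34 u ∧ Bot lab' u

end Pool.LB
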