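import Pool.Agent.Helper54.LB.Per

/-!
# Project LB: from the local conditions to `Good2`
-/

set_option autoImplicit false

namespace Pool.LB

open Pool.LS

theorem mv_of_mvF {k : ℕ} {e f : Mon} (h : mvF k e = some f) : Mv k e f := by
  unfold mvF at h
  split at h
  · split_ifs at h with h1
    simp only [Option.some.injEq] at h
    subst h
    exact Or.inl ⟨rfl, by dsimp only; omega, rfl, rfl, rfl, rfl⟩
  · split_ifs at h with h1
    simp only [Option.some.injEq] at h
    subst h
    exact Or.inr (Or.inl ⟨rfl, rfl, by dsimp only; omega, rfl, rfl, rfl⟩)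
  · split_ifs at h with h1
    simp only [Option.some.injEq] at h
    subst h
    exact Or.inr (Or.inr (Or.inl ⟨rfl, rfl, rfl, by dsimp only; omega, rfl, rfl⟩))
  · split_ifs at h with h1
    simp only [Option.some.injEq] at h
    subst h
    exact Or.inr (Or.inr (Or.inr ⟨rfl, rfl, rfl, rfl, by dsimp only; omega, rfl⟩))
  · simp at h

theorem mvB_of_mv {k : ℕ} {e f : Mon} (h : Mv k e f) : mvB k f = some e := by
  obtain ⟨a1, a2, a3, a4, a5⟩ := e
  obtain ⟨b1, b2, b3, b4, b5⟩ := f
  unfold Mv at h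
  dsimp only at h
  rcases h with ⟨rfl, h1, h2, h3, h4, h5⟩ | ⟨rfl, h1, h2, h3, h4, h5⟩ |
    ⟨rfl, h1, h2, h3, h4, h5⟩ | ⟨rfl, h1, h2, h3, h4, h5⟩
  all_goals
    simp only [mvB]
    rw [if_pos (by omega)]
    simp only [Option.some.injEq, Mon.mk.injEq]
    refine ⟨?_, ?_, ?_, ?_, ?_⟩ <;> omega

theorem mv_of_mvB {k : ℕ} {e f : Mon} (h : mvB k f = some e) : Mv k e f := by
  unfold mvB at h
  split at h
  · split_ifs at h with h1
    simp only [Option.some.injEq] at h
    subst h
    exact Or.inl ⟨rfl, rfl, by dsimp only; omega, rfl, rfl, rfl⟩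
  · split_ifs at h with h1
    simp only [Option.some.injEq] at h
    subst h
    exact Or.inr (Or.inl ⟨rfl, rfl, rfl, by dsimp only; omega, rfl, rfl⟩)
  · split_ifs at h with h1
    simp only [Option.some.injEq] at h
    subst h
    exact Or.inr (Or.inr (Or.inl ⟨rfl, rfl, rfl, rfl, by dsimp only; omega, rfl⟩))
  · split_ifs at h with h1
    simp only [Option.some.injEq] at h
    subst h
    exact Or.inr (Or.inr (Or.inr ⟨rfl, rfl, rfl, rfl, rfl, by dsimp only; omega⟩))
  · simp at h

theorem deg_mv {k : ℕ} {e f : Mon} (h : Mv k e f) : deg f = deg e := by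
  unfold Mv at h
  unfold deg
  omega

theorem mv_ne_zero {k : ℕ} {e f : Mon} (h : Mv k e f) : k ≠ 0 := by
  unfold Mv at h
  omega

theorem d2_eq (e : Mon) : d2 e = (up e : ℤ) - (dn e : ℤ) := by
  unfold d2 up dn
  push_cast
  ring

theorem red_of_x1' {t : Mon} (h : Red 2 2 (x1 t)) : Red 2 2 t := by
  unfold Red x1 at *
  dsimp only at h
  omega

theorem red_of_x34' {t : Mon} (h : Red 2 2 (x34 t)) : Red 2 2 t := by
  unfold Red x34 at *
  dsimp only at h
  omega

theorem top5_iff {lab : Mon → LLab} {e : Mon} (hr : rangeL (lab e) e) :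
    Top5 (toLab lab) e ↔ (isTopA (lab e) e ∨ lab e = .B 5) := by
  have hd := d2_eq e
  unfold Top5 toLab
  cases hl : lab e with
  | A o =>
    simp only [isTopA, Lab.A.injEq, reduceCtorEq, or_false, false_or]
    constructor
    · rintro ⟨o', h1, h2⟩
      subst h1
      omega
    · intro h1
      exact ⟨o, rfl, by omega⟩
  | L c =>
    rw [hl] at hr
    simp only [rangeL] at hr
    obtain ⟨hr1, hr2⟩ := hr
    simp only [isTopA, Lab.A.injEq, reduceCtorEq, or_false, false_or]
    constructor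
    · rintro ⟨o', h1, h2⟩
      subst h1
      omega
    · intro h1
      exact ⟨_, rfl, by omega⟩
  | B j =>
    simp only [isTopA, Lab.B.injEq, LLab.B.injEq, reduceCtorEq, false_and, exists_false,
      or_false, false_or]
  | C j =>
    simp only [isTopA, reduceCtorEq, false_and, exists_false, or_false]

theorem endOff_imp {lab : Mon → LLab} {e : Mon} {i : ℕ} (hr : rangeL (lab e) e)
    (h : endOff (lab e) e i) : EndOff (toLab lab) e i := by
  have hd := d2_eq e
  unfold EndOff toLab
  cases hl : lab e with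
  | A o =>
    rw [hl] at h
    simp only [endOff] at h
    exact Or.inr ⟨o, rfl, by omega⟩
  | L c =>
    rw [hl] at hr h
    simp only [rangeL, endOff] at hr h
    exact Or.inr ⟨_, rfl, by omega⟩
  | B j =>
    rw [hl] at h
    simp only [endOff] at h
    exact Or.inl (by rw [h])
  | C j =>
    rw [hl] at h
    exact h.elim

/-- The bottoms. -/
theorem bot_iff {lab : Mon → LLab} {e : Mon} (hr : rangeL (lab e) e) :
    LS.Bot (toLab lab) e ↔ (isBotA (lab e) e ∨ lab e = .C 0) := by
  have hd := d2_eq e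
  unfold LS.Bot toLab
  cases hl : lab e with
  | A o =>
    simp only [isBotA, Lab.A.injEq, reduceCtorEq, or_false, false_or]
    constructor
    · rintro ⟨o', h1, h2⟩
      subst h1
      omega
    · intro h1
      exact ⟨o, rfl, by omega⟩
  | L c =>
    rw [hl] at hr
    simp only [rangeL] at hr
    obtain ⟨hr1, hr2⟩ := hr
    simp only [isBotA, Lab.A.injEq, reduceCtorEq, or_false, false_or]
    constructor
    · rintro ⟨o', h1, h2⟩
      subst h1
      omega
    · intro h1
      exact ⟨_, rfl, by omega⟩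
  | B j =>
    simp only [isBotA, reduceCtorEq, false_and, exists_false, or_false]
  | C j =>
    simp only [isBotA, Lab.C.injEq, LLab.C.injEq, reduceCtorEq, false_and, exists_false,
      or_false, false_or]

theorem toB_iff {lab : Mon → LLab} {e : Mon} {j : ℕ} :
    toLab lab e = .B j ↔ lab e = .B j := by
  unfold toLab
  cases hl : lab e <;> simp

theorem toC_iff {lab : Mon → LLab} {e : Mon} {j : ℕ} :
    toLab lab e = .C j ↔ lab e = .C j := by
  unfold toLab
  cases hl : lab e <;> simp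

theorem toLab_next {lab : Mon → LLab} {e f : Mon} (hd : deg f = deg e)
    (h : lab f = (lab e).next) : toLab lab f = (toLab lab e).next := by
  unfold toLab
  rw [h, hd]
  cases hl : lab e <;> simp [LLab.next, Lab.next]

theorem pred_of_mv {mo : Mon → ℕ} {e f : Mon} (he : Red 2 2 e) (h : Mv (mo e) e f) :
    Pred mo (mo e) f :=
  ⟨e, mvB_of_mv h, he, rfl⟩

theorem beg_iff {lab : Mon → LLab} {mo : Mon → ℕ} {f : Mon} (hf : Red 2 2 f) :
    Beg 2 2 (toLab lab) mo f ↔ begL lab mo f := by
  constructor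
  · rintro ⟨t, rfl, -, h2, h3⟩
    exact ⟨t, rfl, h2, fun h => h3 (toC_iff.2 h)⟩
  · rintro ⟨t, rfl, h2, h3⟩
    exact ⟨t, rfl, red_of_x1' hf, h2, fun h => h3 (toC_iff.1 h)⟩

theorem start_iff {lab lab' : Mon → LLab} {mo : Mon → ℕ} {f : Mon} (hf : Red 2 2 f)
    (hr : rangeL (lab' f) f) :
    (LS.Bot (toLab lab') f ∨ Beg 2 2 (toLab lab) mo f) ↔
      (isBotA (lab' f) f ∨ lab' f = .C 0 ∨ begL lab mo f) := by
  rw [bot_iff hr, beg_iff hf]
  tauto

/-- The common part for one rule `lab', mo'`. -/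
theorem inj_of {lab' : Mon → LLab} {mo' : Mon → ℕ} {bg : Mon → Prop}
    (h : ∀ e, Red 2 2 e → LocC lab' mo' (bg e) e) :
    ∀ e e' f, Red 2 2 e → Red 2 2 e' → Red 2 2 f → mo' e ≠ 0 → mo' e' ≠ 0 →
    Mv (mo' e) e f → Mv (mo' e') e' f → e = e' := by
  intro e e' f he he' hf hm hm' hM hM'
  have hk := (h f hf).predU _ _ (pred_of_mv he hM) (pred_of_mv he' hM')
  have h1 := mvB_of_mv hM
  have h2 := mvB_of_mv hM'
  rw [hk, h2] at h1
  simp only [Option.some.injEq] at h1
  exact h1.symm

theorem start_of {lab lab' : Mon → LLab} {mo mo' : Mon → ℕ}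
    (h : ∀ e, Red 2 2 e → LocC lab' mo' (begL lab mo e) e) :
    ∀ f, Red 2 2 f →
    ((∃ e, Red 2 2 e ∧ mo' e ≠ 0 ∧ Mv (mo' e) e f) ↔
      ¬ (LS.Bot (toLab lab') f ∨ Beg 2 2 (toLab lab) mo f)) := by
  intro f hf
  have hL := h f hf
  rw [start_iff hf hL.range]
  constructor
  · rintro ⟨e, he, hm, hM⟩ hs
    exact hL.start hs _ (pred_of_mv he hM)
  · intro hs
    obtain ⟨k, g, hg, hR, hk⟩ := hL.pred hs
    have hM := mv_of_mvB hg
    refine ⟨g, hR, ?_, ?_⟩
    · rw [hk]
      exact mv_ne_zero hM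
    · rw [hk]
      exact hM

theorem bot_of_loc {lab : Mon → LLab} {mo : Mon → ℕ} {bg : Mon → Prop}
    (h : ∀ e, Red 2 2 e → LocC lab mo (bg e) e) :
    ∀ u, Red 2 2 u → LS.Bot (toLab lab) u → u.e4 = 0 ∧ Red 2 2 (x34 u) ∧
      toLab lab (x34 u) = .C 5 := by
  intro u hu hB
  have hL := h u hu
  rw [bot_iff hL.range] at hB
  rw [toC_iff]
  exact hL.bot hB

theorem botOf_of_loc {lab : Mon → LLab} {mo : Mon → ℕ} {bg : Mon → Prop}
    (h : ∀ e, Red 2 2 e → LocC lab mo (bg e) e) :
    ∀ e, Red 2 2 e → toLab lab e = .C 5 → ∃ u, e = x34 u ∧ LS.Bot (toLab lab) u := by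
  intro e he hC
  rw [toC_iff] at hC
  obtain ⟨u, rfl, hU⟩ := (h e he).botOf hC
  refine ⟨u, rfl, ?_⟩
  rw [bot_iff (h u (red_of_x34' he)).range]
  exact hU

theorem good2_of_loc (lab : Mon → LLab) (mo : Mon → ℕ) (lab' : Mon → LLab) (mo' : Mon → ℕ)
    (h : ∀ e, Red 2 2 e → Loc2 lab mo lab' mo' e) :
    Good2 2 2 (toLab lab) mo (toLab lab') mo' where
  step := by
    intro e he hm
    obtain ⟨f, hf, hR, hl, -⟩ := (h e he).step hm
    have hM := mv_of_mvF hf
    exact ⟨f, hR, hM, toLab_next (deg_mv hM) hl⟩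
  stopC := by
    intro e he hC
    rw [toC_iff] at hC
    by_contra hm
    obtain ⟨f, -, -, -, h1⟩ := (h e he).step hm
    exact h1 hC
  top := by
    intro t ht hm hC
    obtain ⟨i, h1, h2, h3, h4⟩ := (h t ht).stop hm (fun h => hC (toC_iff.2 h))
    exact ⟨i, endOff_imp (h t ht).bulk.range h1, h2, toB_iff.2 h3, toB_iff.2 h4⟩
  inj := inj_of (fun e he => (h e he).bulk)
  start := start_of (fun e he => (h e he).bulk)
  bot := bot_of_loc (fun e he => (h e he).bulk)
  botOf := botOf_of_loc (fun e he => (h e he).bulk)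
  step' := by
    intro e he hm
    obtain ⟨f, hf, hR, hl, -⟩ := (h e he).step' hm
    have hM := mv_of_mvF hf
    exact ⟨f, hR, hM, toLab_next (deg_mv hM) hl⟩
  stop' := by
    intro e he
    have hL := h e he
    rw [top5_iff hL.cap.range, toC_iff]
    constructor
    · intro hm
      have := hL.stop' hm
      tauto
    · intro hx
      by_contra hm
      obtain ⟨f, -, -, -, h1, h2, h3⟩ := hL.step' hm
      tauto
  inj' := inj_of (fun e he => (h e he).cap)
  start' := start_of (fun e he => (h e he).cap)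
  bot' := bot_of_loc (fun e he => (h e he).cap)
  botOf' := botOf_of_loc (fun e he => (h e he).cap)

end Pool.LB
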