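import Pool.Agent.Helper54.LB.Defs
import Pool.Agent.Helper43.LS.Zones

/-!
# Project LB: the local conditions of the two rules, zones

Parameters as in `Pool.LS.Zones`; `m = 3` (period) and `j = 4` (beginning of the periodic part of
the diagonal wall), in units of `x₁^5 x₅^3`. The labels `B j` are shifted by one: `B 1` is the
regular beginning and `B 5` the regular end.
-/

set_option autoImplicit false

namespace Pool.LB

open Pool.LS

/-- `e` ends a piece, and `x₁ e` has the label `B i`. -/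
def endOff (l : LLab) (e : Mon) (i : ℕ) : Prop :=
  match l with
  | .A o => up e + 2 = dn e + o + 2 * i
  | .L c => up e + c = dn e + deg e + 2 * i
  | .B j => j = i + 4
  | .C _ => False

/-- The bounds on the long chains. -/
def rangeL (l : LLab) (e : Mon) : Prop :=
  match l with
  | .L c => dn e + c ≤ up e + deg e + 2 ∧ up e + c ≤ dn e + deg e + 2
  | _ => True

/-- `e = x₁ t` with a top `t` of the bulk rule. -/
def begL (lab : Mon → LLab) (mo : Mon → ℕ) (e : Mon) : Prop :=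
  ∃ t, e = x1 t ∧ mo t = 0 ∧ lab t ≠ .C 5

/-- The local conditions at `e` common to both rules (`bg`: `e` is a beginning `x₁ t`). -/
structure LocC (lab : Mon → LLab) (mo : Mon → ℕ) (bg : Prop) (e : Mon) : Prop where
  range : rangeL (lab e) e
  /-- not a beginning: exactly one predecessor -/
  pred : ¬ (isBotA (lab e) e ∨ lab e = .C 0 ∨ bg) → ∃ k, Pred mo k e
  predU : ∀ k k', Pred mo k e → Pred mo k' e → k = k'
  start : (isBotA (lab e) e ∨ lab e = .C 0 ∨ bg) → ∀ k, ¬ Pred mo k e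
  bot : (isBotA (lab e) e ∨ lab e = .C 0) → e.e4 = 0 ∧ Red 2 2 (x34 e) ∧ lab (x34 e) = .C 5
  botOf : lab e = .C 5 → ∃ u, e = x34 u ∧ (isBotA (lab u) u ∨ lab u = .C 0)

/-- The local conditions at `e`: bulk rule `lab, mo`, cap rule `lab', mo'`. -/
structure Loc2 (lab : Mon → LLab) (mo : Mon → ℕ) (lab' : Mon → LLab) (mo' : Mon → ℕ) (e : Mon) :
    Prop where
  bulk : LocC lab mo (begL lab mo e) e
  cap : LocC lab' mo' (begL lab mo e) e
  step : mo e ≠ 0 → ∃ f, mvF (mo e) e = some f ∧ Red 2 2 f ∧ lab f = (lab e).next ∧ lab e ≠ .C 5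
  stop : mo e = 0 → lab e ≠ .C 5 → ∃ i, endOff (lab e) e i ∧ Red 2 2 (x1 e) ∧
    lab (x1 e) = .B i ∧ lab' (x1 e) = .B i
  step' : mo' e ≠ 0 → ∃ f, mvF (mo' e) e = some f ∧ Red 2 2 f ∧ lab' f = (lab' e).next ∧
    ¬ isTopA (lab' e) e ∧ lab' e ≠ .B 5 ∧ lab' e ≠ .C 5
  stop' : mo' e = 0 → isTopA (lab' e) e ∨ lab' e = .B 5 ∨ lab' e = .C 5

/-- The restrictions of the labels in the zones; `stp`: the piece does not end at `e`. -/
structure ZoneL (lab : Mon → LLab) (stp : Prop) (e : Mon) : Prop where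
  okE : zE e → ∃ j, lab e = .C j
  okD : zD e → ∃ j, lab e = .B j
  ok2 : z2 e → (∃ j, lab e = .C j) ∨ ∃ c, lab e = .L c ∧ ¬ isTopA (.L c) e ∧ stp
  ok3 : z3 e → (∃ j, lab e = .B j) ∨ ∃ c, lab e = .L c ∧ ¬ isBotA (.L c) e
  okS : zS e → ∀ c, lab e ≠ .L c

/-- The restrictions of the labels in the zones for both rules. -/
structure Zone2 (lab : Mon → LLab) (mo : Mon → ℕ) (lab' : Mon → LLab) (mo' : Mon → ℕ) (e : Mon) :
    Prop where
  bulk : ZoneL lab (mo e ≠ 0) e
  cap : ZoneL lab' (mo' e ≠ 0) e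

end Pool.LB
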